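import Pool.Agent.J6H72.NX.Mean

/-!
# First-passage percolation: the power bound for crossings of tubes at a corner

Port of `Pool/Agent/J6H47/NC/Power.lean` (helper47) to weights with an exponential moment.
-/

set_option autoImplicit false

open MeasureTheory ProbabilityTheory Filter Topology
open scoped ENNReal
open Pool.Agent.J6H99.NX

namespace Pool.Agent.J6H72.NX

variable {e : ℕ}

/-- the box -/
def Box (e R : ℕ) : Set (V e) := {x | ∀ i, |x i| ≤ (R : ℤ)}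

/-- the configurations for which the passage times inside the box are within `t` of their means -/
def Good (q : Par) (F : Measure ℝ) [IsProbabilityMeasure F] (R : ℕ) (t : ℝ) : Set (Om e) :=
  {ω | ∀ x ∈ Box e R, ∀ y ∈ Box e R, |T q ω x y - g q F (y - x)| ≤ t}

lemma n1_smul (r : ℕ) (x : V e) : n1 ((r : ℤ) • x) = r * n1 x := by
  unfold n1
  rw [Finset.mul_sum]
  refine Finset.sum_congr rfl fun i _ => ?_
  show |(r : ℤ) * x i| = r * |x i|
  rw [abs_mul, Nat.abs_cast]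

lemma n1_le_of_coord (x : V e) (c : ℤ) (h : ∀ i, |x i| ≤ c) : n1 x ≤ (e + 2) * c := by
  unfold n1
  refine (Finset.sum_le_card_nsmul _ _ c fun i _ => h i).trans ?_
  simp

/-- the mesh -/
noncomputable def mesh (e R : ℕ) : Finset (V e) :=
  Fintype.piFinset fun _ : Fin (e + 2) => Finset.Icc (-(R : ℤ)) R

lemma mem_mesh {R : ℕ} {z : V e} : z ∈ mesh e R ↔ ∀ i, |z i| ≤ (R : ℤ) := by
  simp [mesh, Fintype.mem_piFinset, abs_le]

lemma card_mesh (R : ℕ) : (mesh e R).card = (2 * R + 1) ^ (e + 2) := by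
  unfold mesh
  rw [Fintype.card_piFinset]
  simp only [Int.card_Icc, Finset.prod_const, Finset.card_univ, Fintype.card_fin]
  congr 1
  omega

/-- mesh point near `x` -/
lemma exists_mesh (R r : ℕ) (hr : 1 ≤ r) {x : V e} (hx : x ∈ Box e (R * r)) :
    ∃ z ∈ mesh e R, n1 (x - (r : ℤ) • z) ≤ (e + 2) * r := by
  have hr' : (0 : ℤ) < r := by exact_mod_cast hr
  refine ⟨fun i => x i / r, ?_, ?_⟩
  · rw [mem_mesh]
    intro i
    have h1 := hx i
    push_cast at h1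
    rw [abs_le] at h1 ⊢
    constructor
    · rw [Int.le_ediv_iff_mul_le hr']
      linarith [h1.1]
    · have h2 : x i / r * r ≤ x i := Int.ediv_mul_le _ hr'.ne'
      have h3 : x i / r * r ≤ R * r := h2.trans h1.2
      exact le_of_mul_le_mul_right h3 hr'
  · refine n1_le_of_coord _ _ fun i => ?_
    show |x i - r * (x i / r)| ≤ r
    have h1 := Int.emod_nonneg (x i) hr'.ne'
    have h2 := Int.emod_lt_of_pos (x i) hr'
    have h3 : x i - r * (x i / r) = x i % r := by rw [Int.emod_def]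
    rw [h3, abs_of_nonneg h1]
    exact h2.le

/-- away from the bad events of the mesh the passage times are close to their means -/
lemma good_of_mesh (q : Par) (F : Measure ℝ) [IsProbabilityMeasure F] [MB q F] (R r N : ℕ)
    (hr : 1 ≤ r) (hN : e + 2 ≤ N) (t : ℝ) {ω : Om e}
    (h : ∀ z ∈ mesh e R, ∀ z' ∈ mesh e R,
      |T q ω ((r : ℤ) • z) ((r : ℤ) • z') - g q F ((r : ℤ) • z' - (r : ℤ) • z)| ≤ t)
    (h' : ∀ z ∈ mesh e R, ω ∈ TB q 1 (N * r) ((r : ℤ) • z)) :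
    ω ∈ Good q F (R * r) (t + (4 * q.b * ((e + 2) * r) + 2 * (N * r))) := by
  intro x hx y hy
  obtain ⟨z, hz, hxz⟩ := exists_mesh R r hr hx
  obtain ⟨z', hz', hyz⟩ := exists_mesh R r hr hy
  have h1 := T_lip q ω x y ((r : ℤ) • z) ((r : ℤ) • z')
  have h2 := h z hz z' hz'
  have h3 := g_lip q F ((r : ℤ) • z' - (r : ℤ) • z) (y - x)
  have h4 : n1 ((r : ℤ) • z' - (r : ℤ) • z - (y - x)) ≤ (e + 2) * r + (e + 2) * r := by
    have h5 : (r : ℤ) • z' - (r : ℤ) • z - (y - x) =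
        (x - (r : ℤ) • z) + -(y - (r : ℤ) • z') := by abel
    rw [h5]
    refine (n1_add_le _ _).trans ?_
    rw [n1_neg]
    linarith
  have hNr : ((e : ℤ) + 2) * r ≤ ((N * r : ℕ) : ℤ) := by
    push_cast
    have h5 : ((e : ℤ) + 2) ≤ N := by exact_mod_cast hN
    exact mul_le_mul_of_nonneg_right h5 (Int.natCast_nonneg r)
  have hzero : ∀ w : V e, n1 (w - w) ≤ ((N * r : ℕ) : ℤ) := by
    intro w
    rw [sub_self]
    have h5 : n1 (0 : V e) = 0 := by simp [n1]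
    rw [h5]
    exact Int.natCast_nonneg _
  have hT1 := h' z hz ((r : ℤ) • z) x (hzero _) (hxz.trans hNr)
  have hT2 := h' z' hz' ((r : ℤ) • z') y (hzero _) (hyz.trans hNr)
  have hb := q.hb
  have h6 : (n1 ((r : ℤ) • z' - (r : ℤ) • z - (y - x)) : ℝ) ≤ (e + 2) * r + (e + 2) * r := by
    exact_mod_cast h4
  have h7 : (n1 (x - (r : ℤ) • z) : ℝ) ≤ (e + 2) * r := by exact_mod_cast hxz
  have h8 : (n1 (y - (r : ℤ) • z') : ℝ) ≤ (e + 2) * r := by exact_mod_cast hyz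
  have k1 := mul_le_mul_of_nonneg_left h6 hb.le
  have k2 := mul_le_mul_of_nonneg_left h7 hb.le
  have k3 := mul_le_mul_of_nonneg_left h8 hb.le
  push_cast at hT1 hT2
  rw [abs_le] at h1 h2 h3 ⊢
  constructor <;> nlinarith

section prob

variable (q : Par) (F : Measure ℝ) [IsProbabilityMeasure F] [MB q F]

/-- Chebyshev for one pair -/
lemma cheb (c0 : ℝ) (hc0 : 0 ≤ c0)
    (VAR : ∀ x : V e, ∫ ω, (T q ω 0 x - g q F x) ^ 2 ∂(PM e F) ≤ c0 * n1 x) (x y : V e) (N : ℝ)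
    (hN : (n1 (y - x) : ℝ) ≤ N) (t : ℝ) (ht : 0 < t) :
    PM e F {ω | t ≤ |T q ω x y - g q F (y - x)|} ≤ ENNReal.ofReal (c0 * N / t ^ 2) := by
  have h1 := meas_ge_le_variance_div_sq (memLp_T q F x y) ht
  rw [mean_T] at h1
  refine h1.trans (ENNReal.ofReal_le_ofReal ?_)
  rw [var_T]
  have h2 := VAR (y - x)
  have h3 : c0 * (n1 (y - x) : ℝ) ≤ c0 * N := mul_le_mul_of_nonneg_left hN hc0
  exact div_le_div_of_nonneg_right (h2.trans h3) (by positivity)

theorem fluct (VAR : VarB e q F) (A : ℕ) (hA : 1 ≤ A) :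
    ∃ C : ℝ, 0 ≤ C ∧ ∀ s : ℕ, 1 ≤ s →
      PM e F (Good q F (A * s ^ (2 * (e + 2) + 2)) (C * s ^ (2 * (e + 2) + 1)))ᶜ ≤
        ENNReal.ofReal (1 / 4) := by
  obtain ⟨c0, hc0, hV⟩ := VAR
  obtain ⟨CT, hCT, hTB⟩ := prob_TB (e := e) q F one_pos 1
  set c1 : ℝ := ((3 * A : ℝ) ^ (2 * (e + 2))) * (c0 * (2 * (e + 2) * A)) with hc1
  have hc1' : 0 ≤ c1 := by positivity
  set C1 : ℝ := 4 * c1 + 1 with hC1
  have hC1' : 1 ≤ C1 := by linarith
  have hAR : (1 : ℝ) ≤ A := by exact_mod_cast hA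
  obtain ⟨N0, hN0⟩ := exists_nat_ge (8 * CT * (3 * (A : ℝ)) ^ (e + 2))
  set N : ℕ := max N0 (e + 2) with hNdef
  have hN2 : e + 2 ≤ N := le_max_right _ _
  have hN3 : 8 * CT * (3 * (A : ℝ)) ^ (e + 2) ≤ N := by
    refine hN0.trans ?_
    exact_mod_cast le_max_left _ _
  have hN1 : 1 ≤ N := by omega
  have hNR : (1 : ℝ) ≤ N := by exact_mod_cast hN1
  refine ⟨C1 + (4 * q.b * (e + 2) + 2 * N), by have := q.hb; positivity, fun s hs => ?_⟩
  have hsR : (1 : ℝ) ≤ s := by exact_mod_cast hs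
  have hs0 : (0 : ℝ) < s := by linarith
  set r : ℕ := s ^ (2 * (e + 2) + 1) with hr
  have hr1 : 1 ≤ r := Nat.one_le_pow _ _ hs
  have hrR : (r : ℝ) = (s : ℝ) ^ (2 * (e + 2) + 1) := by rw [hr]; push_cast; ring
  have hr0 : (0 : ℝ) < r := by exact_mod_cast hr1
  have hbox : A * s ^ (2 * (e + 2) + 2) = (A * s) * r := by rw [hr]; ring
  -- the bad set
  have hsub : (Good q F (A * s ^ (2 * (e + 2) + 2))
      ((C1 + (4 * q.b * (e + 2) + 2 * N)) * s ^ (2 * (e + 2) + 1)))ᶜ ⊆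
      (⋃ z ∈ mesh e (A * s) ×ˢ mesh e (A * s), {ω : Om e | C1 * r ≤
        |T q ω ((r : ℤ) • z.1) ((r : ℤ) • z.2) -
          g q F ((r : ℤ) • z.2 - (r : ℤ) • z.1)|}) ∪
      ⋃ z ∈ mesh e (A * s), (TB q 1 (N * r) ((r : ℤ) • z))ᶜ := by
    intro ω hω
    by_contra hne
    rw [Set.mem_union, not_or] at hne
    apply hω
    rw [hbox]
    have h1 : (C1 + (4 * q.b * (e + 2) + 2 * N)) * (s : ℝ) ^ (2 * (e + 2) + 1) =
        C1 * r + (4 * q.b * ((e + 2) * r) + 2 * (N * r)) := by rw [hrR]; ring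
    rw [h1]
    refine good_of_mesh q F (A * s) r N hr1 hN2 (C1 * r) (fun z hz z' hz' => ?_) fun z hz => ?_
    · by_contra hlt
      apply hne.1
      simp only [Set.mem_iUnion]
      exact ⟨(z, z'), Finset.mem_product.2 ⟨hz, hz'⟩, (not_le.1 hlt).le⟩
    · by_contra hlt
      apply hne.2
      simp only [Set.mem_iUnion]
      exact ⟨z, hz, hlt⟩
  refine (measure_mono hsub).trans ((measure_union_le _ _).trans ?_)
  have hsum : ENNReal.ofReal (1 / 4) = ENNReal.ofReal (1 / 8) + ENNReal.ofReal (1 / 8) := by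
    rw [← ENNReal.ofReal_add (by norm_num) (by norm_num)]; norm_num
  rw [hsum]
  refine add_le_add ((measure_biUnion_finset_le _ _).trans ?_)
    ((measure_biUnion_finset_le _ _).trans ?_)
  · have hN : ∀ z ∈ mesh e (A * s) ×ˢ mesh e (A * s),
        PM e F {ω : Om e | C1 * r ≤ |T q ω ((r : ℤ) • z.1) ((r : ℤ) • z.2) -
          g q F ((r : ℤ) • z.2 - (r : ℤ) • z.1)|} ≤
        ENNReal.ofReal (c0 * (2 * (e + 2) * A * (s * r)) / (C1 * r) ^ 2) := by
      intro z hz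
      rw [Finset.mem_product] at hz
      refine cheb q F c0 hc0 hV _ _ _ ?_ _ (by positivity)
      have h1 : (r : ℤ) • z.2 - (r : ℤ) • z.1 = (r : ℤ) • (z.2 - z.1) := by rw [smul_sub]
      rw [h1, n1_smul]
      have h2 : n1 (z.2 - z.1) ≤ (e + 2) * (2 * (A * s)) := by
        refine n1_le_of_coord _ _ fun i => ?_
        have h3 := mem_mesh.1 hz.1 i
        have h4 := mem_mesh.1 hz.2 i
        push_cast at h3 h4
        refine (abs_sub _ _).trans ?_
        linarith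
      have h5 : (n1 (z.2 - z.1) : ℝ) ≤ (e + 2) * (2 * (A * s)) := by exact_mod_cast h2
      push_cast
      have h6 := mul_le_mul_of_nonneg_left h5 hr0.le
      linarith
    refine (Finset.sum_le_card_nsmul _ _ _ hN).trans ?_
    rw [Finset.card_product, card_mesh, nsmul_eq_mul, ← ENNReal.ofReal_natCast,
      ← ENNReal.ofReal_mul (by positivity)]
    refine ENNReal.ofReal_le_ofReal ?_
    push_cast
    have h3 : (2 * ((A : ℝ) * s) + 1) ^ (e + 2) * (2 * ((A : ℝ) * s) + 1) ^ (e + 2) ≤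
        (3 * (A : ℝ)) ^ (2 * (e + 2)) * (s : ℝ) ^ (2 * (e + 2)) := by
      rw [← pow_add, ← mul_pow, ← two_mul]
      refine pow_le_pow_left₀ (by positivity) ?_ _
      nlinarith
    rw [mul_div_assoc', div_le_iff₀ (by positivity)]
    have h4 : (s : ℝ) ^ (2 * (e + 2)) * (s * r) = (r : ℝ) ^ 2 := by
      rw [hrR]; ring
    have h5 : (2 * ((A : ℝ) * s) + 1) ^ (e + 2) * (2 * ((A : ℝ) * s) + 1) ^ (e + 2) *
        (c0 * (2 * (e + 2) * A * (s * r))) ≤ c1 * r ^ 2 := by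
      have h6 : 0 ≤ c0 * (2 * (e + 2) * A * (s * r)) := by positivity
      refine (mul_le_mul_of_nonneg_right h3 h6).trans (le_of_eq ?_)
      rw [hc1, ← h4]; ring
    refine h5.trans ?_
    have h7 : c1 ≤ 1 / 8 * C1 ^ 2 := by nlinarith
    calc c1 * (r : ℝ) ^ 2 ≤ (1 / 8 * C1 ^ 2) * r ^ 2 :=
          mul_le_mul_of_nonneg_right h7 (by positivity)
      _ = 1 / 8 * (C1 * r) ^ 2 := by ring
  · have hNr1 : 1 ≤ N * r := Nat.one_le_iff_ne_zero.2 (Nat.mul_ne_zero (by omega) (by omega))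
    refine (Finset.sum_le_card_nsmul _ _ _ fun z _ => hTB (N * r) ((r : ℤ) • z) hNr1).trans ?_
    rw [card_mesh, nsmul_eq_mul, ← ENNReal.ofReal_natCast, ← ENNReal.ofReal_mul (by positivity)]
    refine ENNReal.ofReal_le_ofReal ?_
    push_cast
    rw [pow_one, mul_div_assoc', div_le_iff₀ (by positivity)]
    have h3 : (2 * ((A : ℝ) * s) + 1) ^ (e + 2) ≤ (3 * (A : ℝ)) ^ (e + 2) * r := by
      calc (2 * ((A : ℝ) * s) + 1) ^ (e + 2) ≤ (3 * (A : ℝ) * s) ^ (e + 2) :=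
            pow_le_pow_left₀ (by positivity) (by nlinarith) _
        _ = (3 * (A : ℝ)) ^ (e + 2) * (s : ℝ) ^ (e + 2) := mul_pow _ _ _
        _ ≤ (3 * (A : ℝ)) ^ (e + 2) * r := by
            refine mul_le_mul_of_nonneg_left ?_ (by positivity)
            rw [hrR]
            exact pow_le_pow_right₀ hsR (by omega)
    have h4 := mul_le_mul_of_nonneg_right h3 hCT.le
    have h5 := mul_le_mul_of_nonneg_right hN3 hr0.le
    linarith

/-- the good configurations: passage times in the box are close to their means, far points are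
reached late, and the points at distance at most `m` are reached in time -/
def Gd (e : ℕ) (q : Par) (F : Measure ℝ) [IsProbabilityMeasure F] (c1 : ℝ) (R : ℕ) (t : ℝ)
    (m : ℕ) : Set (Om e) :=
  {ω | ω ∈ Good q F R t ∧ (∀ y : V e, (R : ℤ) ≤ n1 y → c1 * n1 y ≤ T q ω 0 y) ∧ ω ∈ TB q 1 m 0}

theorem prob_Gd (VAR : VarB e q F) (FAR : FarB e q F) :
    ∃ c1 : ℝ, 0 < c1 ∧ ∃ A0 N0 : ℕ, ∀ A : ℕ, A0 ≤ A → 1 ≤ A → ∀ N : ℕ, N0 ≤ N → 1 ≤ N →
      ∃ C : ℝ, 0 ≤ C ∧ ∀ s : ℕ, 1 ≤ s →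
      ENNReal.ofReal (1 / 2) ≤ PM e F (Gd e q F c1 (A * s ^ (2 * (e + 2) + 2))
        (C * s ^ (2 * (e + 2) + 1)) (N * s ^ (2 * (e + 2) + 2))) := by
  obtain ⟨c1, hc1, hfar⟩ := FAR
  obtain ⟨C, hC, hfar⟩ := hfar 1
  obtain ⟨CT, hCT, hTB⟩ := prob_TB (e := e) q F one_pos 1
  obtain ⟨A0, hA0⟩ := exists_nat_ge (8 * C)
  obtain ⟨N0, hN0⟩ := exists_nat_ge (8 * CT)
  refine ⟨c1, hc1, A0, N0, fun A hA hA1 N hN hN1 => ?_⟩
  obtain ⟨C1, hC1, hfl⟩ := fluct q F VAR A hA1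
  refine ⟨C1, hC1, fun s hs => ?_⟩
  set R : ℕ := A * s ^ (2 * (e + 2) + 2) with hR
  set m : ℕ := N * s ^ (2 * (e + 2) + 2) with hm
  set t : ℝ := C1 * s ^ (2 * (e + 2) + 1) with ht
  have hF : (PM e F) {ω | ∃ y : V e, (R : ℤ) ≤ n1 y ∧ T q ω 0 y < c1 * n1 y} ≤
      ENNReal.ofReal (1 / 8) := by
    refine (hfar R).trans (ENNReal.ofReal_le_ofReal ?_)
    rw [pow_one, div_le_iff₀ (by positivity)]
    have h5 : A ≤ R := by
      rw [hR]; exact Nat.le_mul_of_pos_right _ (Nat.one_le_pow _ _ hs)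
    have h6 : (A0 : ℝ) ≤ R := by exact_mod_cast hA.trans h5
    linarith
  have hNm : N ≤ m := by
    rw [hm]; exact Nat.le_mul_of_pos_right _ (Nat.one_le_pow _ _ hs)
  have hT : (PM e F) (TB q 1 m (0 : V e))ᶜ ≤ ENNReal.ofReal (1 / 8) := by
    refine (hTB m 0 (hN1.trans hNm)).trans (ENNReal.ofReal_le_ofReal ?_)
    have h6 : (N0 : ℝ) ≤ m := by exact_mod_cast hN.trans hNm
    have h7 : (1 : ℝ) ≤ m := by exact_mod_cast hN1.trans hNm
    rw [pow_one, div_le_iff₀ (by linarith)]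
    linarith
  have hsub : (Gd e q F c1 R t m)ᶜ ⊆ (Good q F R t)ᶜ ∪
      ({ω | ∃ y : V e, (R : ℤ) ≤ n1 y ∧ T q ω 0 y < c1 * n1 y} ∪ (TB q 1 m (0 : V e))ᶜ) := by
    intro ω hω
    by_contra hne
    apply hω
    rw [Set.mem_union, not_or, Set.mem_compl_iff, not_not, Set.mem_union, not_or,
      Set.mem_compl_iff, not_not] at hne
    refine ⟨hne.1, fun y hy => ?_, hne.2.2⟩
    by_contra hlt
    exact hne.2.1 ⟨y, hy, not_le.1 hlt⟩
  have hbad : PM e F (Gd e q F c1 R t m)ᶜ ≤ ENNReal.ofReal (1 / 2) := by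
    refine (measure_mono hsub).trans ((measure_union_le _ _).trans ?_)
    have h8 : ENNReal.ofReal (1 / 2) =
        ENNReal.ofReal (1 / 4) + (ENNReal.ofReal (1 / 8) + ENNReal.ofReal (1 / 8)) := by
      rw [← ENNReal.ofReal_add (by norm_num) (by norm_num),
        ← ENNReal.ofReal_add (by norm_num) (by norm_num)]
      norm_num
    rw [h8]
    exact add_le_add (hfl s hs) ((measure_union_le _ _).trans (add_le_add hF hT))
  have h1 := measure_union_le (μ := PM e F) (Gd e q F c1 R t m) (Gd e q F c1 R t m)ᶜ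
  rw [Set.union_compl_self, measure_univ] at h1
  have h3 : ENNReal.ofReal (1 / 2) + ENNReal.ofReal (1 / 2) = 1 := by
    rw [← ENNReal.ofReal_add (by norm_num) (by norm_num)]
    norm_num
  have h5 : ENNReal.ofReal (1 / 2) + ENNReal.ofReal (1 / 2) ≤
      PM e F (Gd e q F c1 R t m) + ENNReal.ofReal (1 / 2) := by
    rw [h3]; exact h1.trans (by gcongr)
  exact ENNReal.le_of_add_le_add_right ENNReal.ofReal_ne_top h5

omit [MB q F] in
/-- near geodesics from the origin stay in the box -/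
lemma stay {c1 : ℝ} {R m : ℕ} {t : ℝ} {ω : Om e} (hω : ω ∈ Gd e q F c1 R t m) (hc1 : 0 < c1)
    {y : V e} (hym : n1 y ≤ m) (hy : q.b * n1 y + m + 1 < c1 * R) (p : (lat e).Walk 0 y)
    (hp : cost q ω p < T q ω 0 y + 1) : ∀ v ∈ p.support, v ∈ Box e R := by
  intro v hv i
  obtain ⟨p1, p2, h1, _, _⟩ := cost_split q ω p hv
  have h2 := T_le q ω p1
  have h3 := cost_nonneg q ω p2
  have h4 := hω.2.2 0 y (by rw [sub_zero]; simp [n1]) (by rw [sub_zero]; exact hym)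
  rw [sub_zero, one_mul] at h4
  have h5 : n1 v < R := by
    by_contra h
    push Not at h
    have h6 := hω.2.1 v h
    have h7 : (R : ℝ) ≤ n1 v := by exact_mod_cast h
    have h8 := mul_le_mul_of_nonneg_left h7 hc1.le
    linarith
  exact (coord_le_n1 v i).trans h5.le

end prob

section corner

variable {q : Par} {F : Measure ℝ} [IsProbabilityMeasure F] {ι : Type} [Fintype ι]
  (D : Cor e q F ι)

lemma lat_g (x : V e) : D.c0 * nr (vc x - lf D.chi x • D.v) ≤ g q F x - lf D.chi x := by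
  obtain ⟨i, hi⟩ := D.lat (vc x)
  have h1 := D.lb i x
  have h2 : D.c0 * nr (vc x - lf D.chi x • D.v) ≤ lf (D.f i) x - lf D.chi x := hi
  linarith

lemma chi_le_g (x : V e) : lf D.chi x ≤ g q F x := by
  have h1 := lat_g D x
  have h2 := mul_nonneg D.c0_pos.le (nr_nonneg (vc x - lf D.chi x • D.v))
  linarith

lemma neg_chi_le_g (x : V e) : -lf D.chi x ≤ g q F x := by
  rw [← lf_neg, ← g_neg]
  exact chi_le_g D (-x)

lemma n1_le_g {x : V e} (h : 0 ≤ lf D.chi x) : (n1 x : ℝ) ≤ (1 / D.c0 + nr D.v) * g q F x := by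
  have h1 := lat_g D x
  have h2 := chi_le_g D x
  have h3 : nr (vc x) ≤ nr (vc x - lf D.chi x • D.v) + lf D.chi x * nr D.v := by
    have h4 := nr_add_le (vc x - lf D.chi x • D.v) (lf D.chi x • D.v)
    rw [sub_add_cancel, nr_smul, abs_of_nonneg h] at h4
    exact h4
  rw [nr_vc] at h3
  have h5 : nr (vc x - lf D.chi x • D.v) ≤ (g q F x - lf D.chi x) / D.c0 := by
    rw [le_div_iff₀' D.c0_pos]; exact h1
  have h6 : (g q F x - lf D.chi x) / D.c0 ≤ g q F x / D.c0 :=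
    div_le_div_of_nonneg_right (by linarith) D.c0_pos.le
  have h7 : lf D.chi x * nr D.v ≤ g q F x * nr D.v :=
    mul_le_mul_of_nonneg_right h2 (nr_nonneg _)
  have h8 : (1 / D.c0 + nr D.v) * g q F x = g q F x / D.c0 + g q F x * nr D.v := by ring
  rw [h8]
  linarith

/-- the rounding constant -/
noncomputable def rc : ℝ := nr D.chi * ((e : ℝ) + 2)

lemma rc_nonneg : 0 ≤ rc D := by
  unfold rc
  have := nr_nonneg D.chi
  positivity

lemma chi_rnd (t : ℝ) : |lf D.chi (rnd (t • D.v)) - t| ≤ rc D := by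
  have h := abs_lf_rnd_sub D.chi (t • D.v)
  rwa [dt_smul, D.chi_v, mul_one] at h

lemma exists_chi_ge (m : ℝ) : m ≤ lf D.chi (rnd ((m + rc D) • D.v)) := by
  have h := (abs_le.1 (chi_rnd D (m + rc D))).1
  linarith

/-- the least mean passage time to the points of level at least `m` -/
noncomputable def hh (m : ℝ) : ℝ := ⨅ z : {z : V e // m ≤ lf D.chi z}, g q F z.1

instance (m : ℝ) : Nonempty {z : V e // m ≤ lf D.chi z} := ⟨⟨_, exists_chi_ge D m⟩⟩

lemma hh_bdd (m : ℝ) : BddBelow (Set.range fun z : {z : V e // m ≤ lf D.chi z} => g q F z.1) :=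
  ⟨0, by rintro _ ⟨z, rfl⟩; exact g_nonneg q F _⟩

lemma hh_le {m : ℝ} {z : V e} (h : m ≤ lf D.chi z) : hh D m ≤ g q F z :=
  ciInf_le (hh_bdd D m) ⟨z, h⟩

lemma exists_hh (m : ℝ) {δ : ℝ} (hδ : 0 < δ) : ∃ z : V e, m ≤ lf D.chi z ∧ g q F z < hh D m + δ := by
  obtain ⟨z, hz⟩ := exists_lt_of_ciInf_lt (show hh D m < hh D m + δ by linarith)
  exact ⟨z.1, z.2, hz⟩

variable [MB q F]

lemma hh_shift (m : ℝ) :
    hh D m ≤ hh D (m - nr D.chi) + q.b * n1 (rnd ((nr D.chi + rc D) • D.v)) := by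
  refine le_of_forall_pos_lt_add fun δ hδ => ?_
  obtain ⟨z, hz, hg⟩ := exists_hh D (m - nr D.chi) hδ
  have h1 := exists_chi_ge D (nr D.chi)
  have h2 := hh_le D (m := m) (z := z + rnd ((nr D.chi + rc D) • D.v)) (by
    rw [lf_add]; linarith)
  have h3 := g_add_le q F z (rnd ((nr D.chi + rc D) • D.v))
  have h4 := g_le q F (rnd ((nr D.chi + rc D) • D.v))
  linarith

lemma hh_ub (m : ℝ) (hm : 0 ≤ m) :
    hh D m ≤ q.b * ((m + rc D) * nr D.v + ((e : ℝ) + 2)) := by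
  have h1 := hh_le D (exists_chi_ge D m)
  have h2 := g_le q F (rnd ((m + rc D) • D.v))
  have h3 := n1_rnd_le ((m + rc D) • D.v)
  rw [nr_smul, abs_of_nonneg (by linarith [rc_nonneg D])] at h3
  have h4 := mul_le_mul_of_nonneg_left h3 q.hb.le
  linarith

omit [MB q F] in
lemma hh_lim (δ : ℝ) (hδ : 0 < δ) : ∀ᶠ n : ℕ in atTop, hh D n ≤ n * (1 + δ) := by
  obtain ⟨k0, hk0⟩ := exists_nat_ge (rc D)
  have h1 := D.ub (δ / 2) (half_pos hδ)
  have h2 : ∀ᶠ n : ℕ in atTop, g q F (rnd (((n + k0 : ℕ) : ℝ) • D.v)) ≤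
      ((n + k0 : ℕ) : ℝ) * (1 + δ / 2) :=
    (tendsto_add_atTop_nat k0).eventually h1
  obtain ⟨n0, hn0⟩ := exists_nat_ge ((k0 : ℝ) * (1 + δ / 2) / (δ / 2))
  filter_upwards [h2, eventually_ge_atTop n0] with n hn hn1
  have h3 := (abs_le.1 (chi_rnd D ((n + k0 : ℕ) : ℝ))).1
  have h4 := hh_le D (m := n) (z := rnd (((n + k0 : ℕ) : ℝ) • D.v)) (by
    push_cast at h3 ⊢; linarith)
  have h5 : (k0 : ℝ) * (1 + δ / 2) ≤ n * (δ / 2) := by
    rw [div_le_iff₀ (half_pos hδ)] at hn0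
    have h6 : (n0 : ℝ) ≤ n := by exact_mod_cast hn1
    have h7 := mul_le_mul_of_nonneg_right h6 (half_pos hδ).le
    linarith
  have h6 : ((n + k0 : ℕ) : ℝ) * (1 + δ / 2) = (n + k0) * (1 + δ / 2) := by push_cast; ring
  rw [h6] at hn
  nlinarith

/-- points with small mean passage time are not far away -/
lemma near_pt (m M : ℝ) (hM : 1 ≤ M) (hm : 0 ≤ m) (hmM : m ≤ M) {y : V e}
    (hy : m ≤ lf D.chi y) (hg : g q F y < hh D m + 1) :
    (n1 y : ℝ) ≤ (1 / D.c0 + nr D.v) *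
      (q.b * ((1 + rc D) * nr D.v + ((e : ℝ) + 2)) + 1) * M := by
  have h1 := n1_le_g D (x := y) (hm.trans hy)
  have h2 := hh_ub D m hm
  have h3 : 0 ≤ 1 / D.c0 + nr D.v := by
    have := D.c0_pos
    have := nr_nonneg D.v
    positivity
  have h4 : g q F y ≤ (q.b * ((1 + rc D) * nr D.v + ((e : ℝ) + 2)) + 1) * M := by
    have hb := q.hb
    have hr := rc_nonneg D
    have hv := nr_nonneg D.v
    have he : (0 : ℝ) ≤ (e : ℝ) + 2 := by positivity
    have h5 : (m + rc D) * nr D.v + ((e : ℝ) + 2) ≤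
        ((1 + rc D) * nr D.v + ((e : ℝ) + 2)) * M := by
      have h6 : (m + rc D) ≤ (1 + rc D) * M := by nlinarith
      have h7 := mul_le_mul_of_nonneg_right h6 hv
      nlinarith
    have h8 := mul_le_mul_of_nonneg_left h5 hb.le
    nlinarith
  calc (n1 y : ℝ) ≤ (1 / D.c0 + nr D.v) * g q F y := h1
    _ ≤ (1 / D.c0 + nr D.v) * ((q.b * ((1 + rc D) * nr D.v + ((e : ℝ) + 2)) + 1) * M) :=
        mul_le_mul_of_nonneg_left h4 h3
    _ = _ := by ring

/-- superadditivity up to the fluctuations -/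
lemma superadd {c1 : ℝ} (hc1 : 0 < c1) {R r : ℕ} {t : ℝ} {ω : Om e}
    (hω : ω ∈ Gd e q F c1 R t r) (M : ℝ) (hM : 1 ≤ M)
    (hr : (1 / D.c0 + nr D.v) * (q.b * ((1 + rc D) * nr D.v + ((e : ℝ) + 2)) + 1) * M ≤ r)
    (hR : q.b * ((1 / D.c0 + nr D.v) *
      (q.b * ((1 + rc D) * nr D.v + ((e : ℝ) + 2)) + 1) * M) + r + 1 < c1 * R)
    (k m : ℕ) (hkm : ((k * m : ℕ) : ℝ) ≤ M) :
    (k : ℝ) * hh D m ≤ hh D ((k * m : ℕ) : ℝ) +
      k * (q.b * n1 (rnd ((nr D.chi + rc D) • D.v))) + (k + 1) * t + 2 := by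
  obtain ⟨y, hy, hg⟩ := exists_hh D ((k * m : ℕ) : ℝ) one_pos
  have hn := near_pt D _ M hM (Nat.cast_nonneg _) hkm hy hg
  obtain ⟨p, hp⟩ := exists_near q ω 0 y one_pos
  have hb := q.hb
  have hR' : q.b * (n1 y : ℝ) + r + 1 < c1 * R := by
    have := mul_le_mul_of_nonneg_left hn hb.le
    linarith
  have hyr : n1 y ≤ (r : ℤ) := by exact_mod_cast hn.trans hr
  have hsupp := stay q F hω hc1 hyr hR' p hp
  have h0 : (0 : V e) ∈ Box e R := hsupp _ p.start_mem_support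
  have h1 : y ∈ Box e R := hsupp _ p.end_mem_support
  have hup := (abs_le.1 (hω.1 0 h0 _ h1)).2
  rw [sub_zero] at hup
  have hlow := cost_layers q ω D.chi (Box e R) m (hh D (m - nr D.chi) - t) (Nat.cast_nonneg _) (by
      intro x hx y hy hxy
      have h2 := (abs_le.1 (hω.1 x hx y hy)).1
      rw [← lf_sub] at hxy
      have h3 := hh_le D hxy
      linarith) k 0 0 y p hsupp (by rw [lf_zero]; linarith [nr_nonneg D.chi]) (by
      push_cast at hy; linarith)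
  have h4 := hh_shift D m
  have h5 := mul_le_mul_of_nonneg_left h4 (Nat.cast_nonneg (α := ℝ) k)
  nlinarith

/-- the constants and the good configurations -/
theorem setup (VAR : VarB e q F) (FAR : FarB e q F) (C5 : ℝ) (hC5 : 0 ≤ C5) :
    ∃ (c1 : ℝ) (A N : ℕ) (C : ℝ), 0 < c1 ∧ 0 ≤ C ∧
      (∀ M : ℕ, 1 ≤ M → C5 * M ≤ ((N * M : ℕ) : ℝ) ∧
        q.b * (C5 * M) + ((N * M : ℕ) : ℝ) + 1 < c1 * ((A * M : ℕ) : ℝ)) ∧ ∀ s : ℕ, 1 ≤ s →
      ENNReal.ofReal (1 / 2) ≤ PM e F (Gd e q F c1 (A * s ^ (2 * (e + 2) + 2))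
        (C * s ^ (2 * (e + 2) + 1)) (N * s ^ (2 * (e + 2) + 2))) := by
  obtain ⟨c1, hc1, A0, N0, h⟩ := prob_Gd q F VAR FAR
  obtain ⟨N1, hN1⟩ := exists_nat_ge C5
  set N : ℕ := max N0 (N1 + 1) with hN
  have hNN : N0 ≤ N := le_max_left _ _
  have hN1N : N1 + 1 ≤ N := le_max_right _ _
  have hN1R : (N1 : ℝ) + 1 ≤ N := by exact_mod_cast hN1N
  obtain ⟨A1, hA1⟩ := exists_nat_gt ((q.b * C5 + N + 1) / c1)
  rw [div_lt_iff₀' hc1] at hA1
  have hb := q.hb
  obtain ⟨C, hC, h⟩ := h (max A0 (A1 + 1)) (le_max_left _ _) (by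
    exact (Nat.succ_le_succ (Nat.zero_le A1)).trans (le_max_right _ _)) N hNN (by omega)
  refine ⟨c1, max A0 (A1 + 1), N, C, hc1, hC, fun M hM => ?_, h⟩
  have hMR : (1 : ℝ) ≤ M := by exact_mod_cast hM
  have h1 : (A1 : ℝ) ≤ ((max A0 (A1 + 1) : ℕ) : ℝ) := by
    exact_mod_cast (Nat.le_succ A1).trans (le_max_right _ _)
  have h2 := mul_le_mul_of_nonneg_left h1 hc1.le
  have h3 : 0 ≤ q.b * C5 := by positivity
  have hN0R : (0 : ℝ) ≤ N := Nat.cast_nonneg N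
  constructor
  · push_cast
    exact mul_le_mul_of_nonneg_right (by linarith) (by linarith)
  · rw [Nat.cast_mul, Nat.cast_mul]
    have h4 : q.b * C5 + N + 1 < c1 * ((max A0 (A1 + 1) : ℕ) : ℝ) := by linarith
    have h5 : (q.b * C5 + N + 1) * M < c1 * ((max A0 (A1 + 1) : ℕ) : ℝ) * M :=
      mul_lt_mul_of_pos_right h4 (by linarith)
    calc q.b * (C5 * M) + N * M + 1 ≤ (q.b * C5 + N + 1) * M := by nlinarith
      _ < _ := h5
      _ = _ := by ring

/-- the bound for the excess -/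
theorem excess (VAR : VarB e q F) (FAR : FarB e q F) :
    ∃ C : ℝ, 0 ≤ C ∧ ∀ s m : ℕ, 1 ≤ s → m ≤ s ^ (2 * (e + 2) + 2) →
      hh D m ≤ m + C * s ^ (2 * (e + 2) + 1) := by
  have hb := q.hb
  have hrc := rc_nonneg D
  have hv := nr_nonneg D.v
  have hc0 := D.c0_pos
  obtain ⟨c1, A, N, C1, hc1, hC1, hA, hpr⟩ := setup (e := e) (q := q) (F := F) VAR FAR
    ((1 / D.c0 + nr D.v) * (q.b * ((1 + rc D) * nr D.v + ((e : ℝ) + 2)) + 1)) (by positivity)
  set k : ℕ := 2 ^ (2 * (e + 2) + 2) with hk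
  have hk1 : 1 ≤ k := Nat.one_le_pow _ _ (by norm_num)
  have hkR : (1 : ℝ) ≤ k := by exact_mod_cast hk1
  have hk0 : (0 : ℝ) < k := by linarith
  have hkk : (k : ℝ) = 2 * 2 ^ (2 * (e + 2) + 1) := by rw [hk]; push_cast; ring
  set C6 : ℝ := q.b * n1 (rnd ((nr D.chi + rc D) • D.v)) with hC6
  have hC60 : 0 ≤ C6 := by
    have : (0 : ℝ) ≤ n1 (rnd ((nr D.chi + rc D) • D.v)) := by exact_mod_cast n1_nonneg _
    positivity
  set C2 : ℝ := (k * C6 + (k + 1) * C1 * 2 ^ (2 * (e + 2) + 1) + 2) / k with hC2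
  have hC2' : 0 ≤ C2 := by positivity
  have hC2k : k * C2 = k * C6 + (k + 1) * C1 * 2 ^ (2 * (e + 2) + 1) + 2 := by
    rw [hC2]; field_simp
  -- one step
  have step : ∀ s m : ℕ, 1 ≤ s → m ≤ s ^ (2 * (e + 2) + 2) →
      (k : ℝ) * (hh D m - m) ≤
        (hh D ((k * m : ℕ) : ℝ) - (k * m : ℕ)) + k * C2 * s ^ (2 * (e + 2) + 1) := by
    intro s m hs hm
    have hkm : k * m ≤ (2 * s) ^ (2 * (e + 2) + 2) := by
      rw [mul_pow]; exact Nat.mul_le_mul_left _ hm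
    have hne : (Gd e q F c1 (A * (2 * s) ^ (2 * (e + 2) + 2))
        (C1 * ((2 * s : ℕ) : ℝ) ^ (2 * (e + 2) + 1))
        (N * (2 * s) ^ (2 * (e + 2) + 2))).Nonempty := by
      rw [Set.nonempty_iff_ne_empty]
      intro h0
      have h1 := hpr (2 * s) (by omega)
      rw [h0, measure_empty] at h1
      simp at h1
    obtain ⟨ω, hω⟩ := hne
    have hM1 : 1 ≤ (2 * s) ^ (2 * (e + 2) + 2) := Nat.one_le_pow _ _ (by omega)
    have h1 := superadd D hc1 hω (((2 * s) ^ (2 * (e + 2) + 2) : ℕ) : ℝ) (by exact_mod_cast hM1)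
      (hA _ hM1).1 (hA _ hM1).2 k m (by exact_mod_cast hkm)
    have hs1 : (1 : ℝ) ≤ (s : ℝ) ^ (2 * (e + 2) + 1) :=
      one_le_pow₀ (by exact_mod_cast hs)
    have h2 : k * C6 + (k + 1) * (C1 * ((2 * s : ℕ) : ℝ) ^ (2 * (e + 2) + 1)) + 2 ≤
        k * C2 * s ^ (2 * (e + 2) + 1) := by
      rw [hC2k]
      push_cast
      rw [mul_pow]
      have h3 : k * C6 ≤ k * C6 * (s : ℝ) ^ (2 * (e + 2) + 1) :=
        le_mul_of_one_le_right (by positivity) hs1
      nlinarith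
    push_cast at h1 h2 ⊢
    linarith
  -- iteration
  have iter : ∀ j s m : ℕ, 1 ≤ s → m ≤ s ^ (2 * (e + 2) + 2) →
      hh D m - m ≤
        (hh D ((k ^ j * m : ℕ) : ℝ) - (k ^ j * m : ℕ)) / k ^ j +
          2 * C2 * s ^ (2 * (e + 2) + 1) := by
    intro j
    induction j with
    | zero =>
      intro s m _ _
      have : (0 : ℝ) ≤ 2 * C2 * (s : ℝ) ^ (2 * (e + 2) + 1) := by positivity
      simpa using this
    | succ j ih =>
      intro s m hs hm
      have hkm : k * m ≤ (2 * s) ^ (2 * (e + 2) + 2) := by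
        rw [mul_pow]; exact Nat.mul_le_mul_left _ hm
      have h1 := ih (2 * s) (k * m) (by omega) hkm
      have h2 := step s m hs hm
      have h3 : k ^ j * (k * m) = k ^ (j + 1) * m := by ring
      rw [h3] at h1
      have h4 : (2 * C2 * ((2 * s : ℕ) : ℝ) ^ (2 * (e + 2) + 1)) =
          k * (C2 * s ^ (2 * (e + 2) + 1)) := by
        rw [hkk]; push_cast; rw [mul_pow]; ring
      rw [h4] at h1
      have h5 : (k : ℝ) * (hh D m - m) ≤
          k * ((hh D ((k ^ (j + 1) * m : ℕ) : ℝ) -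
            (k ^ (j + 1) * m : ℕ)) / k ^ (j + 1) + 2 * C2 * s ^ (2 * (e + 2) + 1)) := by
        have h6 : (k : ℝ) * ((hh D ((k ^ (j + 1) * m : ℕ) : ℝ) -
            (k ^ (j + 1) * m : ℕ)) / k ^ (j + 1)) =
            (hh D ((k ^ (j + 1) * m : ℕ) : ℝ) - (k ^ (j + 1) * m : ℕ)) / k ^ j := by
          rw [pow_succ (k : ℝ)]; field_simp
        rw [mul_add, h6]
        linarith
      exact le_of_mul_le_mul_left h5 hk0
  refine ⟨2 * C2, by positivity, fun s m hs hm => ?_⟩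
  have hlim : ∀ m : ℕ, m ≤ s ^ (2 * (e + 2) + 2) → 0 < m →
      hh D m ≤ m + 2 * C2 * s ^ (2 * (e + 2) + 1) := by
    intro m hm hm0
    have hmR : (0 : ℝ) < m := by exact_mod_cast hm0
    refine le_of_forall_pos_le_add fun δ hδ => ?_
    have hto : Tendsto (fun j : ℕ => k ^ j * m) atTop atTop := by
      refine Tendsto.atTop_mul_const' hm0 (tendsto_pow_atTop_atTop_of_one_lt ?_)
      rw [hk]
      exact Nat.one_lt_pow (by omega) (by norm_num)
    obtain ⟨j, hj⟩ := (hto.eventually (hh_lim D (δ / m) (by positivity))).exists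
    have h1 := iter j s m hs hm
    have hkj : (0 : ℝ) < (k : ℝ) ^ j := by positivity
    have h2 : (hh D ((k ^ j * m : ℕ) : ℝ) - (k ^ j * m : ℕ)) / k ^ j ≤ δ := by
      rw [div_le_iff₀ hkj]
      push_cast at hj ⊢
      have h3 : (k : ℝ) ^ j * m * (1 + δ / m) = (k : ℝ) ^ j * m + δ * k ^ j := by
        field_simp
      rw [h3] at hj
      linarith
    linarith
  rcases Nat.eq_zero_or_pos m with rfl | hm0
  · have h1 := hh_le D (m := ((0 : ℕ) : ℝ)) (z := 0) (by simp)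
    rw [g_zero] at h1
    have : (0 : ℝ) ≤ 2 * C2 * (s : ℝ) ^ (2 * (e + 2) + 1) := by positivity
    push_cast at h1 ⊢
    linarith
  · exact hlim m hm hm0

/-- the bound for the mean passage time in the direction `v` -/
theorem mean_v (VAR : VarB e q F) (FAR : FarB e q F) :
    ∃ C : ℝ, 0 ≤ C ∧ ∀ s l : ℕ, 1 ≤ s → l ≤ s ^ (2 * (e + 2) + 2) →
      g q F (rnd ((l : ℝ) • D.v)) ≤ l + C * s ^ (2 * (e + 2) + 1) := by
  obtain ⟨C3, hC3, hex⟩ := excess D VAR FAR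
  have hb := q.hb
  have hv := nr_nonneg D.v
  have hc0 := D.c0_pos
  refine ⟨(C3 + 1) + q.b * (((e : ℝ) + 2) + (C3 + 1) * (1 / D.c0 + nr D.v)), by positivity,
    fun s l hs hl => ?_⟩
  set r : ℝ := (s : ℝ) ^ (2 * (e + 2) + 1) with hr
  have hr1 : 1 ≤ r := one_le_pow₀ (by exact_mod_cast hs)
  obtain ⟨z, hz, hg⟩ := exists_hh D l one_pos
  have h1 := hex s l hs hl
  rw [← hr] at h1
  have h2 := lat_g D z
  have h3 := chi_le_g D z
  have h4 : g q F z ≤ l + (C3 + 1) * r := by nlinarith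
  have h5 : nr (vc z - lf D.chi z • D.v) ≤ (C3 + 1) * r / D.c0 := by
    rw [le_div_iff₀' hc0]
    linarith
  have h6 : nr (vc z - (l : ℝ) • D.v) ≤ (C3 + 1) * r / D.c0 + (C3 + 1) * r * nr D.v := by
    have h7 := nr_add_le (vc z - lf D.chi z • D.v) ((lf D.chi z - l) • D.v)
    have h8 : vc z - lf D.chi z • D.v + (lf D.chi z - l) • D.v = vc z - (l : ℝ) • D.v := by
      rw [sub_smul]; abel
    rw [h8, nr_smul, abs_of_nonneg (by linarith)] at h7
    have h9 : (lf D.chi z - l) * nr D.v ≤ (C3 + 1) * r * nr D.v :=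
      mul_le_mul_of_nonneg_right (by linarith) hv
    linarith
  have h7 : (n1 (rnd ((l : ℝ) • D.v) - z) : ℝ) ≤
      (((e : ℝ) + 2) + (C3 + 1) * (1 / D.c0 + nr D.v)) * r := by
    rw [← nr_vc, vc_sub]
    have h8 := nr_tri (vc (rnd ((l : ℝ) • D.v))) ((l : ℝ) • D.v) (vc z)
    have h9 := nr_rnd_sub ((l : ℝ) • D.v)
    rw [nr_sub_comm ((l : ℝ) • D.v)] at h8
    have h10 : (((e : ℝ) + 2) + (C3 + 1) * (1 / D.c0 + nr D.v)) * r =
        ((e : ℝ) + 2) * r + ((C3 + 1) * r / D.c0 + (C3 + 1) * r * nr D.v) := by ring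
    rw [h10]
    have h11 : ((e : ℝ) + 2) ≤ ((e : ℝ) + 2) * r := le_mul_of_one_le_right (by positivity) hr1
    linarith
  have h8 := (abs_le.1 (g_lip q F (rnd ((l : ℝ) • D.v)) z)).2
  have h9 := mul_le_mul_of_nonneg_left h7 hb.le
  nlinarith

/-- **The power bound**, at the scales `s ^ (2 d + 2)`. -/
theorem power_aux (VAR : VarB e q F) (FAR : FarB e q F) :
    ∃ C : ℕ, ∀ s l : ℕ, 1 ≤ s → l ≤ s ^ (2 * (e + 2) + 2) →
      ENNReal.ofReal (1 / 2) ≤ PM e F (K D l ((C * s ^ (2 * (e + 2) + 1) : ℕ) : ℝ)) := by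
  have hb := q.hb
  have hv := nr_nonneg D.v
  have hrc := rc_nonneg D
  obtain ⟨c1, A, N, C1, hc1, hC1, hA, hpr⟩ := setup (e := e) (q := q) (F := F) VAR FAR
    (nr D.v + ((e : ℝ) + 2)) (by positivity)
  obtain ⟨C3, hC3, hmean⟩ := mean_v D VAR FAR
  obtain ⟨C4, hC4⟩ := exists_nat_ge (C3 + 3 * C1 + 1 + rc D)
  refine ⟨C4, fun s l hs hl => (hpr s hs).trans (measure_mono fun ω hω => ?_)⟩
  have hl' := hmean s l hs hl
  set r : ℝ := (s : ℝ) ^ (2 * (e + 2) + 1) with hr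
  have hr1 : 1 ≤ r := one_le_pow₀ (by exact_mod_cast hs)
  set M : ℕ := s ^ (2 * (e + 2) + 2) with hM
  have hM1 : 1 ≤ M := Nat.one_le_pow _ _ hs
  have hM1R : (1 : ℝ) ≤ M := by exact_mod_cast hM1
  have hlM : (l : ℝ) ≤ M := by exact_mod_cast hl
  have hWc : ((C4 * s ^ (2 * (e + 2) + 1) : ℕ) : ℝ) = C4 * r := by rw [hr]; push_cast; ring
  rw [hWc]
  have hW : C3 * r + 3 * C1 * r + 1 + rc D ≤ C4 * r := by
    have h1 := mul_le_mul_of_nonneg_right hC4 (by linarith : (0 : ℝ) ≤ r)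
    nlinarith
  set x := rnd ((l : ℝ) • D.v) with hx
  have hn : (n1 x : ℝ) ≤ (nr D.v + ((e : ℝ) + 2)) * M := by
    have h1 := n1_rnd_le ((l : ℝ) • D.v)
    rw [nr_smul, abs_of_nonneg (Nat.cast_nonneg l)] at h1
    have h2 := mul_le_mul_of_nonneg_right hlM hv
    have h3 : ((e : ℝ) + 2) ≤ ((e : ℝ) + 2) * M := le_mul_of_one_le_right (by positivity) hM1R
    linarith
  obtain ⟨p, hp⟩ := exists_near q ω 0 x one_pos
  have hxN : n1 x ≤ ((N * M : ℕ) : ℤ) := by exact_mod_cast hn.trans (hA M hM1).1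
  have hsupp := stay q F hω hc1 (y := x) hxN (by
    have h1 := (hA M hM1).2
    have h2 := mul_le_mul_of_nonneg_left hn hb.le
    linarith) p hp
  have h0 : (0 : V e) ∈ Box e (A * M) := hsupp _ p.start_mem_support
  have h1 : x ∈ Box e (A * M) := hsupp _ p.end_mem_support
  have hT := (abs_le.1 (hω.1 0 h0 _ h1)).2
  rw [sub_zero] at hT
  have hcost : cost q ω p ≤ l + C3 * r + C1 * r + 1 := by linarith
  have hC1r : 0 ≤ C1 * r := by positivity
  have hC3r : 0 ≤ C3 * r := by positivity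
  refine ⟨p, edges_EIn fun y hy => ?_, by linarith⟩
  obtain ⟨p1, p2, hc, _, _⟩ := cost_split q ω p hy
  have h2 := T_le q ω p1
  have h3 := T_le q ω p2
  have hyB := hsupp y hy
  have h4 := (abs_le.1 (hω.1 0 h0 _ hyB)).1
  have h5 := (abs_le.1 (hω.1 y hyB _ h1)).1
  rw [sub_zero] at h4
  have key : g q F y + g q F (x - y) ≤ l + C3 * r + 3 * C1 * r + 1 := by linarith
  have hxl := abs_le.1 (chi_rnd D l)
  rw [← hx] at hxl
  refine ⟨?_, ?_, fun i => ?_⟩
  · have h6 := neg_chi_le_g D y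
    have h7 := chi_le_g D (x - y)
    rw [lf_sub] at h7
    linarith [hxl.1]
  · have h6 := chi_le_g D y
    have h7 := neg_chi_le_g D (x - y)
    rw [lf_sub] at h7
    linarith [hxl.2]
  · have h6 := D.lb i y
    have h7 := chi_le_g D (x - y)
    rw [lf_sub] at h7
    linarith [hxl.1]

end corner

/-- **Module POWER.** -/
theorem power : PowT := by
  intro e q F _ _ ι _ D VAR FAR
  obtain ⟨C, hC⟩ := power_aux D VAR FAR
  set P : ℕ := 2 * (e + 2) + 1 with hP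
  have hP0 : (0 : ℝ) < (P : ℝ) + 1 := by positivity
  refine ⟨(P : ℝ) / (P + 1), C * 2 ^ P, (div_lt_one hP0).2 (by linarith), fun l hl => ?_⟩
  have hlR : (1 : ℝ) ≤ l := by exact_mod_cast hl
  have hl0 : (0 : ℝ) ≤ l := by linarith
  set a : ℝ := (l : ℝ) ^ (1 / ((P : ℝ) + 1)) with ha
  have ha1 : 1 ≤ a := Real.one_le_rpow hlR (by positivity)
  have haP : a ^ (P + 1) = l := by
    rw [ha, ← Real.rpow_natCast, ← Real.rpow_mul hl0]
    push_cast
    rw [one_div, inv_mul_cancel₀ hP0.ne', Real.rpow_one]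
  have haP' : a ^ P = (l : ℝ) ^ ((P : ℝ) / (P + 1)) := by
    rw [ha, ← Real.rpow_natCast, ← Real.rpow_mul hl0]
    congr 1
    ring
  set s : ℕ := ⌈a⌉₊ with hs
  have has : a ≤ s := Nat.le_ceil a
  have hs1 : 1 ≤ s := by
    have : (1 : ℝ) ≤ s := ha1.trans has
    exact_mod_cast this
  have hs2 : (s : ℝ) ≤ 2 * a := by
    have := Nat.ceil_lt_add_one (by linarith : 0 ≤ a)
    linarith
  have hls : l ≤ s ^ (P + 1) := by
    have h1 : (l : ℝ) ≤ (s : ℝ) ^ (P + 1) := by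
      rw [← haP]
      exact pow_le_pow_left₀ (by linarith) has _
    exact_mod_cast h1
  refine ⟨C * s ^ P, ?_, hC s l hs1 hls⟩
  push_cast
  rw [← haP']
  have h1 : (s : ℝ) ^ P ≤ (2 * a) ^ P := pow_le_pow_left₀ (by positivity) hs2 _
  rw [mul_pow] at h1
  calc (C : ℝ) * (s : ℝ) ^ P ≤ C * (2 ^ P * a ^ P) :=
        mul_le_mul_of_nonneg_left h1 (Nat.cast_nonneg _)
    _ = C * 2 ^ P * a ^ P := by ring

end Pool.Agent.J6H72.NX
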